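import Mathlib
import Pool.Agent.H28.AX.Defs
import Pool.Agent.H28.AX.Core

/-!
MP_c671ed_lc: the class of subdirect products of division rings is not axiomatizable (both the
unital and the non-unital reading).

`A Y` is the quaternion algebra `(u, v)` over the polynomial ring `C[u, v][Y]`.
* `A ℕ` is an elementary substructure of `A ℂ` (Tarski-Vaught test with permutations of variables).
* Every division ring quotient of `A ℕ` is generated over the central image of `ℂ` by a countable
  set, so it is commutative (Amitsur), so it kills `i * j`: `A ℕ` is not a subdirect product.
* `A ℂ` has continuum many variables: a given element uses finitely many, and the others can be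
  mapped onto the fraction field `L` of `C[u, v][Y]`, so `A ℂ` maps onto the quaternion division
  algebra `(u, v)` over `L` without killing the element: `A ℂ` is a subdirect product.
-/

open FirstOrder

namespace Pool.Agent.Results.MP_c671ed_lc.NotAxiomatizable

open Pool.Agent.MP_c671ed_lc

/-- The class of subdirect products of division rings is not axiomatizable: (1) no first-order
theory in the language `(+, *, -, 0, 1)` has the property that a unital ring satisfies it if and
only if it is a subdirect product of division rings; (2) the same in the non-unital reading, for
the language `(+, *, -, 0)`. -/
theorem result :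
    (¬ ∃ T : Language.ring.Theory, ∀ (R : Type) [Ring R] [FirstOrder.Ring.CompatibleRing R],
      R ⊨ T ↔ IsSubdirectDiv R) ∧
    (¬ ∃ T : rngLang.Theory, ∀ (R : Type) [NonUnitalRing R],
      (letI := rngStr R; R ⊨ T) ↔ IsSubdirectDivNU R) :=
  ⟨unital, nonunital⟩

end Pool.Agent.Results.MP_c671ed_lc.NotAxiomatizable
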